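import Pool.Agent.U408.JP.Main

set_option autoImplicit false

open MeasureTheory Filter Topology Set
open scoped ENNReal

namespace Pool.Agent.Results.MP_41ff88_co.AlmostSureDivergence

open Pool.Agent.U408.JP

/-- Admissible pairs: `α, β ∈ (0,1)` irrational with `1, α, β` linearly independent over `ℚ`. -/
def Admissible (x : ℝ × ℝ) : Prop :=
  0 < x.1 ∧ x.1 < 1 ∧ 0 < x.2 ∧ x.2 < 1 ∧ Irrational x.1 ∧ Irrational x.2 ∧
    LinearIndependent ℚ ![(1 : ℝ), x.1, x.2]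

/-- The two-dimensional Jacobi–Perron map `(α, β) ↦ ({β/α}, {1/α})`. -/
noncomputable def jacobiPerron (x : ℝ × ℝ) : ℝ × ℝ :=
  (Int.fract (x.2 / x.1), Int.fract (1 / x.1))

/-- The digits `(⌊β/α⌋, ⌊1/α⌋)`. -/
noncomputable def digit (x : ℝ × ℝ) : ℕ × ℕ := (⌊x.2 / x.1⌋₊, ⌊1 / x.1⌋₊)

/-- The vectors `V_{-2} = (0,1,0)`, `V_{-1} = (0,0,1)`, `V_0 = (1,0,0)`,
`V_{n+1} = b_n V_n + a_n V_{n-1} + V_{n-2}`, where `(a_n, b_n)` are the digits of the `n`-th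
iterate; `vec x n` is `V_{n-2}`. -/
noncomputable def vec (x : ℝ × ℝ) : ℕ → ℕ × ℕ × ℕ
  | 0 => (0, 1, 0)
  | 1 => (0, 0, 1)
  | 2 => (1, 0, 0)
  | n + 3 => (digit (jacobiPerron^[n] x)).2 • vec x (n + 2) +
      (digit (jacobiPerron^[n] x)).1 • vec x (n + 1) + vec x n

/-- The `i`-th convergent `(q_i, p_i, r_i)`; `p_i / q_i → α`, `r_i / q_i → β`. -/
noncomputable def convergent (x : ℝ × ℝ) (i : ℕ) : ℕ × ℕ × ℕ := vec x (i + 2)

/-- The planar lattice generated by `(a,b)`, `(N,0)`, `(0,N)`. -/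
def lattice (N a b : ℕ) : Submodule ℤ (ℤ × ℤ) :=
  Submodule.span ℤ {((a : ℤ), (b : ℤ)), ((N : ℤ), 0), (0, (N : ℤ))}

/-- The Euclidean length of a shortest nonzero vector of `lattice N a b`. -/
noncomputable def shortest (N a b : ℕ) : ℝ :=
  sInf {t : ℝ | ∃ v ∈ lattice N a b, v ≠ 0 ∧ t = √((v.1 : ℝ) ^ 2 + (v.2 : ℝ) ^ 2)}

/-- The sequence `s_i(α,β) = λ(L_{q_i,p_i,r_i}) / √q_i`. -/
noncomputable def ratio (x : ℝ × ℝ) (i : ℕ) : ℝ :=
  shortest (convergent x i).1 (convergent x i).2.1 (convergent x i).2.2 /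
    √((convergent x i).1 : ℝ)

lemma jp_eq' : jacobiPerron = jpT := rfl

lemma vec_eq (x : ℝ × ℝ) : ∀ n, vec x n = conv x n
  | 0 => by rw [vec, conv]
  | 1 => by rw [vec, conv]
  | 2 => by rw [vec, conv]
  | n + 3 => by
    rw [vec, conv, vec_eq x n, vec_eq x (n + 1), vec_eq x (n + 2)]
    rfl

lemma mem_lattice (N a b : ℕ) (v : ℤ × ℤ) : v ∈ lattice N a b ↔ InL N a b v.1 v.2 := by
  rw [lattice, Submodule.mem_span_triple]
  constructor
  · rintro ⟨n, k, l, rfl⟩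
    exact ⟨n, k, l, by simp, by simp⟩
  · rintro ⟨n, k, l, h1, h2⟩
    refine ⟨n, k, l, Prod.ext ?_ ?_⟩
    · simp [h1]
    · simp [h2]

lemma shortest_eq (N a b : ℕ) : shortest N a b = lam N a b := by
  unfold shortest lam
  congr 1
  ext t
  constructor
  · rintro ⟨v, h1, h2, h3⟩
    exact ⟨v.1, v.2, h2, (mem_lattice N a b v).1 h1, h3⟩
  · rintro ⟨x, y, h1, h2, h3⟩
    exact ⟨(x, y), (mem_lattice N a b (x, y)).2 h2, h1, h3⟩

lemma ratio_eq (x : ℝ × ℝ) (i : ℕ) : ratio x i = sq2 x i := by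
  unfold ratio sq2 fr convergent
  rw [vec_eq, shortest_eq]

lemma indep {x : ℝ × ℝ} :
    LinearIndependent ℚ ![(1 : ℝ), x.1, x.2] ↔
    ∀ c0 c1 c2 : ℚ, (c0 : ℝ) + c1 * x.1 + c2 * x.2 = 0 → c0 = 0 ∧ c1 = 0 ∧ c2 = 0 := by
  rw [Fintype.linearIndependent_iff]
  constructor
  · intro h c0 c1 c2 hc
    have := h ![c0, c1, c2] (by
      simp only [Fin.sum_univ_three, Rat.smul_def]
      simpa using hc)
    exact ⟨this 0, this 1, this 2⟩
  · intro h g hg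
    simp only [Fin.sum_univ_three, Rat.smul_def] at hg
    obtain ⟨h0, h1, h2⟩ := h (g 0) (g 1) (g 2) (by simpa using hg)
    intro i
    fin_cases i
    · exact h0
    · exact h1
    · exact h2

lemma Admissible.adm {x : ℝ × ℝ} (h : Admissible x) : Adm x := by
  obtain ⟨h1, h2, h3, h4, -, -, h7⟩ := h
  exact ⟨h1, h2, h3, h4, indep.1 h7⟩

lemma admissible_of {x : ℝ × ℝ} (hx : x ∈ Ioo (0 : ℝ) 1 ×ˢ Ioo (0 : ℝ) 1)
    (h : ∀ c0 c1 c2 : ℚ, (c0 : ℝ) + c1 * x.1 + c2 * x.2 = 0 → c0 = 0 ∧ c1 = 0 ∧ c2 = 0) :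
    Admissible x := by
  obtain ⟨⟨h1, h2⟩, ⟨h3, h4⟩⟩ := hx
  refine ⟨h1, h2, h3, h4, ?_, ?_, indep.2 h⟩
  · rintro ⟨q, hq⟩
    have := h q (-1) 0 (by push_cast; rw [hq]; ring)
    simp at this
  · rintro ⟨q, hq⟩
    have := h q 0 (-1) (by push_cast; rw [hq]; ring)
    simp at this

lemma line_null (c0 c1 c2 : ℝ) (h : c1 ≠ 0 ∨ c2 ≠ 0) :
    volume {x : ℝ × ℝ | c0 + c1 * x.1 + c2 * x.2 = 0} = 0 := by
  by_cases h2 : c2 = 0
  · subst h2
    have h1 : c1 ≠ 0 := by simpa using h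
    have hsub : {x : ℝ × ℝ | c0 + c1 * x.1 + 0 * x.2 = 0} ⊆ {-c0 / c1} ×ˢ univ := by
      intro x hx
      simp only [mem_ofPred_eq] at hx
      refine ⟨?_, trivial⟩
      rw [mem_singleton_iff, eq_div_iff h1]
      linarith
    refine measure_mono_null hsub ?_
    rw [Measure.volume_eq_prod, Measure.prod_prod]
    simp
  · have hm : MeasurableSet {x : ℝ × ℝ | c0 + c1 * x.1 + c2 * x.2 = 0} := by
      apply measurableSet_eq_fun
      · fun_prop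
      · fun_prop
    rw [Measure.volume_eq_prod, Measure.measure_prod_null hm]
    refine Eventually.of_forall fun a => ?_
    have hsub : Prod.mk a ⁻¹' {x : ℝ × ℝ | c0 + c1 * x.1 + c2 * x.2 = 0} ⊆
        {-(c0 + c1 * a) / c2} := by
      intro y hy
      simp only [mem_preimage, mem_ofPred_eq] at hy
      rw [mem_singleton_iff, eq_div_iff h2]
      linarith
    exact measure_mono_null hsub (by simp)

lemma ae_indep : ∀ᵐ x : ℝ × ℝ, ∀ c : ℚ × ℚ × ℚ,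
    (c.1 : ℝ) + c.2.1 * x.1 + c.2.2 * x.2 = 0 → c.1 = 0 ∧ c.2.1 = 0 ∧ c.2.2 = 0 := by
  rw [ae_all_iff]
  rintro ⟨c0, c1, c2⟩
  by_cases h : c1 = 0 ∧ c2 = 0
  · obtain ⟨rfl, rfl⟩ := h
    refine Eventually.of_forall fun x hx => ?_
    simpa using hx
  · have h' : (c1 : ℝ) ≠ 0 ∨ (c2 : ℝ) ≠ 0 := by
      by_contra hcon
      push Not at hcon
      exact h ⟨by exact_mod_cast hcon.1, by exact_mod_cast hcon.2⟩
    have := line_null (c0 : ℝ) c1 c2 h'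
    rw [ae_iff]
    refine measure_mono_null ?_ this
    intro x hx
    simp only [mem_ofPred_eq, Classical.not_imp] at hx ⊢
    exact hx.1

/-- A rational interval around a prescribed value which is good. -/
lemma exists_interval (A : ℝ) (hA : 0 ≤ A) : ∃ u1 u2 : ℚ, (∃ θ, Gd (u1 : ℝ) (u2 : ℝ) θ) ∧
    (∀ (w : ℕ → ℝ), (∀ i, 0 ≤ w i) → Tendsto w atTop (𝓝 A) →
      ∀ᶠ i in atTop, (u1 : ℝ) ≤ w i ∧ w i ≤ (u2 : ℝ)) := by
  rcases hA.eq_or_lt with h0 | hpos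
  · subst h0
    refine ⟨0, 1 / 10 ^ 13, ⟨1, ?_⟩, ?_⟩
    · refine ⟨by push_cast; positivity, by norm_num, le_rfl, by push_cast; norm_num, ?_⟩
      intro X hX s q q' _ _ _ _ _ h2 h3 _
      linarith
    · intro w hw ht
      have : ∀ᶠ i in atTop, w i < 1 / 10 ^ 13 := ht.eventually_lt_const (by positivity)
      filter_upwards [this] with i hi
      refine ⟨by push_cast; exact hw i, ?_⟩
      push_cast
      exact hi.le
  · set δ : ℝ := min (A / 4) (1 / 10 ^ 14) with hδ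
    have hδpos : 0 < δ := by rw [hδ]; positivity
    have hδ1 : δ ≤ A / 4 := min_le_left _ _
    have hδ2 : δ ≤ 1 / 10 ^ 14 := min_le_right _ _
    obtain ⟨u1, hu1, hu1'⟩ := exists_rat_btwn (show A - δ < A by linarith)
    obtain ⟨u2, hu2, hu2'⟩ := exists_rat_btwn (show A < A + δ by linarith)
    have hu1pos : (0 : ℝ) < u1 := by linarith
    have hu2pos : (0 : ℝ) < u2 := by linarith
    refine ⟨u1, u2, ⟨((u2 : ℝ) - u1) / u1, hu2pos, ?_, ?_, ?_, ?_⟩, ?_⟩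
    · have : (0 : ℝ) ≤ u2 - u1 := by linarith
      positivity
    · rw [div_le_one hu1pos]; linarith
    · rw [div_mul_eq_mul_div, div_le_iff₀ hu1pos]
      have h1 : (u2 : ℝ) - u1 ≤ 2 * δ := by linarith
      have h2 : (u2 : ℝ) ≤ 2 * u1 := by linarith
      have h3 : ((u2 : ℝ) - u1) * u2 ≤ (2 * δ) * (2 * u1) :=
        mul_le_mul h1 h2 hu2pos.le (by positivity)
      have h4 : δ * u1 ≤ 1 / 10 ^ 14 * u1 := mul_le_mul_of_nonneg_right hδ2 hu1pos.le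
      have h5 : (2 * δ) * (2 * (u1 : ℝ)) = 4 * (δ * u1) := by ring
      rw [h5] at h3
      have h6 : 4 * (1 / 10 ^ 14 * (u1 : ℝ)) ≤ 1 / 10 ^ 13 * u1 := by
        have : 0 < (u1 : ℝ) := hu1pos
        norm_num
        linarith
      linarith
    · intro X hX s q q' h1 h2 h3 h4 hq hqX hq' hq'X
      rw [div_mul_eq_mul_div, le_div_iff₀ hu1pos]
      -- u1 q ≤ s ≤ u2 q'
      have h5 : (u1 : ℝ) * q ≤ u2 * q' := h1.trans h4
      have h6 : (0 : ℝ) ≤ u2 - u1 := by linarith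
      have h7 : ((u2 : ℝ) - u1) * q' ≤ (u2 - u1) * X := mul_le_mul_of_nonneg_left hq'X h6
      nlinarith
    · intro w hw ht
      filter_upwards [ht.eventually_const_lt hu1', ht.eventually_lt_const hu2] with i h1 h2
      exact ⟨h1.le, h2.le⟩

theorem null_convergent :
    volume {x : ℝ × ℝ | Admissible x ∧ ∃ L : ℝ, Tendsto (ratio x) atTop (𝓝 L)} = 0 := by
  set I : Type := {u : ℚ × ℚ // ∃ θ, Gd (u.1 : ℝ) (u.2 : ℝ) θ} × ℕ
  have hsub : {x : ℝ × ℝ | Admissible x ∧ ∃ L : ℝ, Tendsto (ratio x) atTop (𝓝 L)} ⊆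
      ⋃ i : I, EE (i.1.1.1 : ℝ) (i.1.1.2 : ℝ) i.2 := by
    rintro x ⟨hx, L, hL⟩
    have hL2 : Tendsto (fun i => ratio x i ^ 2) atTop (𝓝 (L ^ 2)) := hL.pow 2
    obtain ⟨u1, u2, hG, hev⟩ := exists_interval (L ^ 2) (sq_nonneg L)
    have h1 := hev _ (fun i => sq_nonneg (ratio x i)) hL2
    obtain ⟨n0, hn0⟩ := eventually_atTop.1 h1
    rw [mem_iUnion]
    refine ⟨⟨⟨(u1, u2), hG⟩, n0⟩, hx.adm, fun i hi => ?_⟩
    have := hn0 i hi
    simp only [ratio_eq] at this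
    exact this
  refine measure_mono_null hsub ?_
  rw [measure_iUnion_null_iff]
  rintro ⟨⟨u, θ, hθ⟩, n0⟩
  exact null_EE hθ n0

/-- For Lebesgue-almost every admissible pair the sequence `s_i(α,β)` of normalised
shortest-vector lengths along the Jacobi–Perron convergents diverges. -/
theorem result :
    volume {x : ℝ × ℝ | Admissible x ∧ ∃ L : ℝ, Tendsto (ratio x) atTop (𝓝 L)} = 0 ∧
    volume {x : ℝ × ℝ | Admissible x ∧ ¬ ∃ L : ℝ, Tendsto (ratio x) atTop (𝓝 L)} = 1 := by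
  refine ⟨null_convergent, ?_⟩
  have hvol : volume (Ioo (0 : ℝ) 1 ×ˢ Ioo (0 : ℝ) 1) = 1 := by
    rw [Measure.volume_eq_prod, Measure.prod_prod, Real.volume_Ioo]; simp
  refine le_antisymm ?_ ?_
  · rw [← hvol]
    refine measure_mono ?_
    rintro x ⟨⟨h1, h2, h3, h4, -⟩, -⟩
    exact ⟨⟨h1, h2⟩, ⟨h3, h4⟩⟩
  · have hN := ae_indep
    rw [ae_iff] at hN
    have hsub : Ioo (0 : ℝ) 1 ×ˢ Ioo (0 : ℝ) 1 ⊆
        ({x : ℝ × ℝ | Admissible x ∧ ¬ ∃ L : ℝ, Tendsto (ratio x) atTop (𝓝 L)} ∪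
        {x : ℝ × ℝ | Admissible x ∧ ∃ L : ℝ, Tendsto (ratio x) atTop (𝓝 L)}) ∪
        {x : ℝ × ℝ | ¬ ∀ c : ℚ × ℚ × ℚ,
          (c.1 : ℝ) + c.2.1 * x.1 + c.2.2 * x.2 = 0 → c.1 = 0 ∧ c.2.1 = 0 ∧ c.2.2 = 0} := by
      intro x hx
      by_cases h : ∀ c : ℚ × ℚ × ℚ,
          (c.1 : ℝ) + c.2.1 * x.1 + c.2.2 * x.2 = 0 → c.1 = 0 ∧ c.2.1 = 0 ∧ c.2.2 = 0
      · have hadm : Admissible x := admissible_of hx fun c0 c1 c2 hc => h (c0, c1, c2) hc
        by_cases hL : ∃ L : ℝ, Tendsto (ratio x) atTop (𝓝 L)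
        · exact Or.inl (Or.inr ⟨hadm, hL⟩)
        · exact Or.inl (Or.inl ⟨hadm, hL⟩)
      · exact Or.inr h
    calc (1 : ℝ≥0∞) = volume (Ioo (0 : ℝ) 1 ×ˢ Ioo (0 : ℝ) 1) := hvol.symm
      _ ≤ _ := measure_mono hsub
      _ ≤ (volume {x : ℝ × ℝ | Admissible x ∧ ¬ ∃ L : ℝ, Tendsto (ratio x) atTop (𝓝 L)} +
          volume {x : ℝ × ℝ | Admissible x ∧ ∃ L : ℝ, Tendsto (ratio x) atTop (𝓝 L)}) +
          volume {x : ℝ × ℝ | ¬ ∀ c : ℚ × ℚ × ℚ,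
          (c.1 : ℝ) + c.2.1 * x.1 + c.2.2 * x.2 = 0 → c.1 = 0 ∧ c.2.1 = 0 ∧ c.2.2 = 0} :=
        (measure_union_le _ _).trans (add_le_add (measure_union_le _ _) le_rfl)
      _ = volume {x : ℝ × ℝ | Admissible x ∧ ¬ ∃ L : ℝ, Tendsto (ratio x) atTop (𝓝 L)} := by
        rw [null_convergent, hN, add_zero, add_zero]

end Pool.Agent.Results.MP_41ff88_co.AlmostSureDivergence
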